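import Mathlib
import Pool.Agent.X213.PixleyRoy

open Topology Filter Pool.Agent.X213

namespace Pool.Agent.Results.MP_3a5480_gt.PixleyRoySHD

universe u

/-- If `X` is selectively highly divergent, then so is its Pixley-Roy hyperspace. -/
theorem result (X : Type u) [TopologicalSpace X] (hX : SHD X) : SHD (PR X) := by
  intro U hU
  have h1 : ∀ n, ∃ (F : PR X) (V : Set X), IsOpen V ∧ F.1 ⊆ V ∧ PR.box F V ⊆ U n := by
    intro n
    obtain ⟨F, hF⟩ := (hU n).2
    obtain ⟨V, h1, h2, h3⟩ := (PR.isOpen_iff (U n)).mp (hU n).1 F hF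
    exact ⟨F, V, h1, h2, h3⟩
  choose F V hV hFV hbox using h1
  obtain ⟨x, hx, hdiv⟩ := hX V (fun n => ⟨hV n, (F n).2.2.mono (hFV n)⟩)
  refine ⟨fun n => ⟨insert (x n) (F n).1, (F n).2.1.insert _, Set.insert_nonempty _ _⟩, ?_, ?_⟩
  · intro n
    exact hbox n ⟨Set.subset_insert _ _, Set.insert_subset (hx n) (hFV n)⟩
  · intro φ hφ K hK
    obtain ⟨p, -, ψ, hψ, hlim⟩ := exists_subseq_of_eventually K.2.1 (fun k => x (φ k)) (by
      intro W hW hKW
      have h2 := hK ((PR.nhds_basis K).mem_of_mem (i := W) ⟨hW, hKW⟩)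
      filter_upwards [h2] with k hk
      exact hk.2 (Set.mem_insert _ _))
    exact hdiv (fun k => φ (ψ k)) (hφ.comp hψ) p hlim

end Pool.Agent.Results.MP_3a5480_gt.PixleyRoySHD
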